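import Pool.Agent.H480R2.PW.Main2

/-! The next prime after powers of almost every real number.  There are positive constants
`c a b C` such that for all sequences `t n ≥ 1` and `e n → ∞` and almost every `x > 1`, for all
`0 ≤ a < b` and `C ≥ 0`: the point `y = t n * x ^ (e n)` has no prime in
`[y - C log y, y + a log y]` and a prime in `(y + a log y, y + b log y)` for a set of `n` of upper
density at least `c a b C`. -/

set_option autoImplicit false

namespace Pool.Agent.Results.MP_c853c5_nt.AlmostEveryPower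

open Filter MeasureTheory

theorem result : ∃ c : ℝ → ℝ → ℝ → ℝ,
    (∀ a b C : ℝ, 0 ≤ a → a < b → 0 ≤ C → 0 < c a b C) ∧
    ∀ t e : ℕ → ℝ, (∀ n, 1 ≤ t n) → Tendsto e atTop atTop → ∀ᵐ x : ℝ, 1 < x →
      ∀ a b C : ℝ, 0 ≤ a → a < b → 0 ≤ C → ∃ᶠ N : ℕ in atTop,
        c a b C * N ≤ ({n : ℕ | n < N ∧
          (∀ p : ℕ, p.Prime →
            (p : ℝ) ≤ t n * x ^ (e n) + a * Real.log (t n * x ^ (e n)) →
            (p : ℝ) < t n * x ^ (e n) - C * Real.log (t n * x ^ (e n))) ∧
          ∃ p : ℕ, p.Prime ∧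
            t n * x ^ (e n) + a * Real.log (t n * x ^ (e n)) < p ∧
            (p : ℝ) < t n * x ^ (e n) + b * Real.log (t n * x ^ (e n))}.ncard : ℝ) :=
  Pool.Agent.H480R2.PW.main2

end Pool.Agent.Results.MP_c853c5_nt.AlmostEveryPower
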