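import Pool.Agent.H256R2.SC.Fin1

set_option autoImplicit false

/-! # Prime-free intervals longer than all previously known

For all large `X` there is an integer `n` with `√X ≤ n ≤ X` whose distance to the next prime is at
least `c log X (log₂ X)² log₄ X / (log₃ X)²`. -/

namespace Pool.Agent.Results.MP_c853c5_nt.LongerPrimeFree

open Pool.Agent.H256R2.SC

theorem result : ∃ c : ℝ, 0 < c ∧ ∃ X₀ : ℝ, ∀ X : ℝ, X₀ ≤ X →
    ∃ n : ℕ, Real.sqrt X ≤ n ∧ (n : ℝ) ≤ X ∧ ∀ q : ℕ, q.Prime → n < q →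
      c * (Real.log X * (Real.log (Real.log X)) ^ 2 *
        Real.log (Real.log (Real.log (Real.log X))) /
          (Real.log (Real.log (Real.log X))) ^ 2) ≤ (q : ℝ) - n := by
  obtain ⟨c, hc, X₀, h⟩ := composite_run
  obtain ⟨X₁, h₁⟩ := LG.ev_log 100
  refine ⟨c, hc, max X₀ X₁, fun X hX => ?_⟩
  obtain ⟨x, hx1, hx2, hx3⟩ := h X ((le_max_left _ _).trans hX)
  obtain ⟨-, n1, n2, n3, n4⟩ := h₁ X ((le_max_right _ _).trans hX)
  have hff : 0 ≤ c * ff X := by
    unfold ff
    have e1 : 0 < Real.log X := by linarith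
    have e2 : 0 < Real.log (Real.log X) := by linarith
    have e3 : 0 < Real.log (Real.log (Real.log X)) := by linarith
    have e4 : 0 < Real.log (Real.log (Real.log (Real.log X))) := by linarith
    positivity
  refine ⟨x, hx1, by linarith, fun q hq hxq => ?_⟩
  change c * ff X ≤ (q : ℝ) - x
  by_contra hcon
  push Not at hcon
  have h2 := hx3 (q - x) (by omega) (by
    rw [Nat.cast_sub hxq.le]
    exact hcon.le)
  rw [Nat.add_sub_cancel' hxq.le] at h2
  exact h2 hq

end Pool.Agent.Results.MP_c853c5_nt.LongerPrimeFree
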