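import Pool.Agent.H361R2.PA.Pre

set_option autoImplicit false
set_option maxHeartbeats 4000000

namespace Pool.Agent.Results.MP_c853c5_nt.PrimeFreeTranslates

open Finset

/-- (1) arbitrary sets; (2) prime-free intervals with prescribed offsets; (3) sums. -/
theorem result :
    (∀ D : ℕ, ∃ c : ℝ, 0 < c ∧ ∃ X₀ : ℝ, ∀ X : ℝ, X₀ ≤ X → ∀ A : Finset ℤ,
      (A.card : ℝ) ≤ c * (Real.log X * Real.log (Real.log X)) →
      (∀ a ∈ A, |(a : ℝ)| ≤ Real.exp ((Real.log X) ^ D)) →
      ∀ z : ℤ, ∃ n : ℤ, (z : ℝ) < n ∧ (n : ℝ) ≤ z + X ∧ ∀ a ∈ A, ¬ Prime (n + a)) ∧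
    (∀ D : ℕ, ∃ c : ℝ, 0 < c ∧ ∃ X₀ : ℝ, ∀ X : ℝ, X₀ ≤ X → ∀ k : ℕ, 1 ≤ k →
      (k : ℝ) ≤ c * (Real.log X * Real.log (Real.log X)) → ∀ d : Fin k → ℤ,
      (∀ i, |(d i : ℝ)| ≤ Real.exp ((Real.log X) ^ D)) →
      ∀ z : ℤ, ∃ n : ℤ, (z : ℝ) < n ∧ (n : ℝ) ≤ z + X ∧ ∀ i, ∀ m : ℤ,
        |(m : ℝ) - (n + d i)| ≤ c * (Real.log X * Real.log (Real.log X)) / k → ¬ Prime m) ∧
    (∃ c : ℝ, 0 < c ∧ ∃ N₀ : ℕ, ∀ N : ℕ, N₀ ≤ N → ∃ n₁ n₂ : ℕ, n₁ + n₂ = N ∧ ∀ m : ℤ,
      (|(m : ℝ) - n₁| ≤ c * (Real.log N * Real.log (Real.log N)) ∨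
        |(m : ℝ) - n₂| ≤ c * (Real.log N * Real.log (Real.log N))) → ¬ Prime m) := by
  have h1 : ∀ D : ℕ, ∃ c : ℝ, 0 < c ∧ ∃ X₀ : ℝ, ∀ X : ℝ, X₀ ≤ X → ∀ A : Finset ℤ,
      (A.card : ℝ) ≤ c * (Real.log X * Real.log (Real.log X)) →
      (∀ a ∈ A, |(a : ℝ)| ≤ Real.exp ((Real.log X) ^ D)) →
      ∀ z : ℤ, ∃ n : ℤ, (z : ℝ) < n ∧ (n : ℝ) ≤ z + X ∧ ∀ a ∈ A, ¬ Prime (n + a) := by
    intro D
    obtain ⟨c, hc, X₀, h⟩ := Pool.Agent.H361R2.PA.arbitrary D
    refine ⟨c, hc, max X₀ 1, fun X hX A hA hAb z => ?_⟩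
    have hX0 : X₀ ≤ X := (le_max_left _ _).trans hX
    have hX1 : 1 ≤ X := (le_max_right _ _).trans hX
    obtain ⟨n, hn1, hn2, hn3⟩ := h X hX0 A hA hAb z
    exact ⟨n, by linarith, hn2, hn3⟩
  have h2 : ∀ D : ℕ, ∃ c : ℝ, 0 < c ∧ ∃ X₀ : ℝ, ∀ X : ℝ, X₀ ≤ X → ∀ k : ℕ, 1 ≤ k →
      (k : ℝ) ≤ c * (Real.log X * Real.log (Real.log X)) → ∀ d : Fin k → ℤ,
      (∀ i, |(d i : ℝ)| ≤ Real.exp ((Real.log X) ^ D)) →
      ∀ z : ℤ, ∃ n : ℤ, (z : ℝ) < n ∧ (n : ℝ) ≤ z + X ∧ ∀ i, ∀ m : ℤ,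
        |(m : ℝ) - (n + d i)| ≤ c * (Real.log X * Real.log (Real.log X)) / k → ¬ Prime m := by
    intro D
    obtain ⟨c, hc, X₀, h⟩ := h1 (D + 3)
    refine ⟨min (c / 3) 1, by positivity, max X₀ (Real.exp 10000), fun X hX k hk hkc d hd z => ?_⟩
    have hX0 : X₀ ≤ X := (le_max_left _ _).trans hX
    have hX2 : Real.exp 10000 ≤ X := (le_max_right _ _).trans hX
    have hL : 10000 ≤ Real.log X := by
      rw [← Real.log_exp 10000]
      exact Real.log_le_log (Real.exp_pos _) hX2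
    set L := Real.log X with hLdef
    have hLL0 : 0 < Real.log L := Real.log_pos (by linarith)
    have hLL1 : Real.log L ≤ L := (Real.log_le_sub_one_of_pos (by linarith)).trans (by linarith)
    have hk0 : (0 : ℝ) < k := by exact_mod_cast hk
    set M := min (c / 3) 1 * (L * Real.log L) with hM
    have hM0 : 0 < M := by positivity
    have hM1 : 3 * M ≤ c * (L * Real.log L) := by
      have h3 : min (c / 3) 1 ≤ c / 3 := min_le_left _ _
      have h4 : 0 < L * Real.log L := by positivity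
      rw [hM]
      nlinarith
    have hM2 : M ≤ L ^ 2 := by
      have h3 : min (c / 3) 1 ≤ 1 := min_le_right _ _
      calc M ≤ 1 * (L * L) := by rw [hM]; gcongr
        _ = L ^ 2 := by ring
    have hK1 : 1 ≤ M / k := by rw [le_div_iff₀ hk0]; linarith
    set K : ℕ := ⌊M / k⌋₊ with hK
    have hKle : (K : ℝ) ≤ M / k := Nat.floor_le (by positivity)
    set A : Finset ℤ := Finset.univ.biUnion (fun i : Fin k => (Icc (-(K : ℤ)) K).image (fun j => d i + j))
      with hA
    have hcard1 : ((Icc (-(K : ℤ)) (K : ℤ)).card) = 2 * K + 1 := by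
      rw [Int.card_Icc]
      omega
    have hAc : (A.card : ℝ) ≤ c * (L * Real.log L) := by
      have h3 : A.card ≤ k * (2 * K + 1) := by
        rw [hA]
        refine card_biUnion_le.trans ?_
        calc ∑ i : Fin k, ((Icc (-(K : ℤ)) K).image (fun j => d i + j)).card
            ≤ ∑ i : Fin k, (2 * K + 1) := by
              apply sum_le_sum
              intro i _
              rw [← hcard1]
              exact card_image_le
          _ = k * (2 * K + 1) := by simp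
      have h4 : (A.card : ℝ) ≤ k * (2 * K + 1) := by exact_mod_cast h3
      have h5 : (k : ℝ) * (2 * K + 1) ≤ k * (2 * (M / k) + M / k) := by gcongr
      have h6 : (k : ℝ) * (2 * (M / k) + M / k) = 3 * M := by field_simp; ring
      linarith
    have hAb : ∀ a ∈ A, |(a : ℝ)| ≤ Real.exp (L ^ (D + 3)) := by
      intro a ha
      rw [hA, mem_biUnion] at ha
      obtain ⟨i, _, ha⟩ := ha
      rw [mem_image] at ha
      obtain ⟨j, hj, rfl⟩ := ha
      rw [mem_Icc] at hj
      have e1 : |(j : ℝ)| ≤ K := by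
        rw [abs_le]
        constructor
        · have : ((-(K : ℤ) : ℤ) : ℝ) ≤ j := by exact_mod_cast hj.1
          push_cast at this
          linarith
        · have : (j : ℝ) ≤ ((K : ℤ) : ℝ) := by exact_mod_cast hj.2
          push_cast at this
          linarith
      have e2 : (K : ℝ) ≤ L ^ 2 := by
        have : M / k ≤ M := div_le_self hM0.le (by exact_mod_cast hk)
        linarith
      have e3 := hd i
      have e4 : L ^ 2 ≤ Real.exp (L ^ (D + 2)) := by
        have h3 := Real.add_one_le_exp (L ^ (D + 2))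
        have h4 : L ^ 2 ≤ L ^ (D + 2) := pow_le_pow_right₀ (by linarith) (by omega)
        linarith
      have e5 : Real.exp (L ^ D) ≤ Real.exp (L ^ (D + 2)) := by
        apply Real.exp_le_exp.2
        exact pow_le_pow_right₀ (by linarith) (by omega)
      have e6 : 2 * Real.exp (L ^ (D + 2)) ≤ Real.exp (L ^ (D + 3)) := by
        have h3 : L ^ (D + 2) + 1 ≤ L ^ (D + 3) := by
          have h4 : L ^ (D + 3) = L * L ^ (D + 2) := by ring
          have h5 : 1 ≤ L ^ (D + 2) := one_le_pow₀ (by linarith)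
          rw [h4]
          nlinarith
        have h6 : Real.exp (L ^ (D + 2) + 1) ≤ Real.exp (L ^ (D + 3)) := Real.exp_le_exp.2 h3
        rw [Real.exp_add] at h6
        have h7 := Real.exp_one_gt_d9
        have h8 := Real.exp_pos (L ^ (D + 2))
        nlinarith
      have e7 : |(((d i + j : ℤ)) : ℝ)| ≤ |(d i : ℝ)| + |(j : ℝ)| := by
        push_cast
        exact abs_add_le _ _
      linarith
    obtain ⟨n, hn1, hn2, hn3⟩ := h X hX0 A hAc hAb z
    refine ⟨n, hn1, hn2, fun i m hm hmp => ?_⟩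
    have h3 : m - n ∈ A := by
      rw [hA, mem_biUnion]
      refine ⟨i, mem_univ _, ?_⟩
      rw [mem_image]
      refine ⟨m - n - d i, ?_, by ring⟩
      rw [mem_Icc]
      rw [abs_le] at hm
      have h5 : ⌊M / k⌋ = (K : ℤ) := (Int.natCast_floor_eq_floor (by positivity)).symm
      constructor
      · have h6 : -(m - n - d i) ≤ ⌊M / k⌋ := Int.le_floor.2 (by push_cast; linarith [hm.1])
        linarith
      · have h6 : m - n - d i ≤ ⌊M / k⌋ := Int.le_floor.2 (by push_cast; linarith [hm.2])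
        linarith
    have h4 := hn3 _ h3
    rw [show n + (m - n) = m by ring] at h4
    exact h4 hmp
  refine ⟨h1, h2, ?_⟩
  obtain ⟨c, hc, X₀, h⟩ := h2 2
  have hev : ∃ X₁ : ℝ, ∀ X : ℝ, X₁ ≤ X → 2 * X₀ ≤ X ∧ Real.exp 10000 ≤ X / 2 ∧
      2 ≤ c * (Real.log (X / 2) * Real.log (Real.log (X / 2))) := by
    have t1 : Filter.Tendsto (fun X : ℝ => X / 2) Filter.atTop Filter.atTop :=
      Filter.tendsto_id.atTop_div_const (by norm_num)
    have t2 := Real.tendsto_log_atTop.comp t1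
    have t3 := Real.tendsto_log_atTop.comp t2
    have t4 := (t2.atTop_mul_atTop₀ t3).const_mul_atTop hc
    have hh := ((Filter.eventually_ge_atTop (2 * X₀)).and (t1.eventually_ge_atTop (Real.exp 10000))).and
      (t4.eventually_ge_atTop 2)
    obtain ⟨X₁, hX₁⟩ := Filter.eventually_atTop.1 hh
    refine ⟨X₁, fun X hX => ?_⟩
    obtain ⟨⟨a1, a2⟩, a3⟩ := hX₁ X hX
    exact ⟨a1, a2, a3⟩
  obtain ⟨X₁, hX₁⟩ := hev
  refine ⟨c / 8, by positivity, ⌈X₁⌉₊ + 1, fun N hN => ?_⟩
  have hNX : X₁ ≤ N := by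
    have h3 := Nat.le_ceil X₁
    have h4 : ((⌈X₁⌉₊ + 1 : ℕ) : ℝ) ≤ N := by exact_mod_cast hN
    push_cast at h4
    linarith
  obtain ⟨hXa, hXb, hXc⟩ := hX₁ N hNX
  set X : ℝ := (N : ℝ) / 2 with hXdef
  have hX0 : X₀ ≤ X := by rw [hXdef]; linarith
  have hNpos : (0 : ℝ) < N := by
    have := Real.exp_pos 10000
    linarith
  have hXpos : 0 < X := by rw [hXdef]; positivity
  have hL : 10000 ≤ Real.log X := by
    rw [← Real.log_exp 10000]
    exact Real.log_le_log (Real.exp_pos _) hXb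
  set d : Fin 2 → ℤ := ![0, -(N : ℤ)] with hd
  obtain ⟨n, hn1, hn2, hn3⟩ := h X hX0 2 (by norm_num) (by push_cast; exact hXc) d (by
    intro i
    have hpos := Real.exp_pos (Real.log X ^ 2)
    fin_cases i
    · simp [hd, hpos.le]
    · have e1 : |((d 1 : ℤ) : ℝ)| = N := by
        simp [hd]
      change |((d 1 : ℤ) : ℝ)| ≤ _
      rw [e1]
      have e2 : (N : ℝ) = 2 * X := by rw [hXdef]; ring
      rw [e2]
      have e3 : 2 * X ≤ Real.exp 1 * Real.exp (Real.log X) := by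
        rw [Real.exp_log hXpos]
        have := Real.exp_one_gt_d9
        nlinarith
      refine e3.trans ?_
      rw [← Real.exp_add]
      apply Real.exp_le_exp.2
      nlinarith) 0
  have hn0 : 0 ≤ n := by
    have : (0 : ℝ) < n := by push_cast at hn1; exact hn1
    have h5 : (0 : ℤ) < n := by exact_mod_cast this
    omega
  have hnN : n ≤ N := by
    have : (n : ℝ) ≤ N := by
      push_cast at hn2
      rw [hXdef] at hn2
      linarith
    exact_mod_cast this
  refine ⟨n.toNat, (N - n).toNat, by omega, ?_⟩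
  have hc1 : (((n.toNat : ℕ) : ℤ) : ℝ) = n := by
    rw [Int.toNat_of_nonneg hn0]
  have hc2 : ((((N : ℤ) - n).toNat : ℕ) : ℝ) = N - n := by
    have : ((((N : ℤ) - n).toNat : ℕ) : ℤ) = N - n := Int.toNat_of_nonneg (by omega)
    have h5 : (((((N : ℤ) - n).toNat : ℕ) : ℤ) : ℝ) = ((N - n : ℤ) : ℝ) := by rw [this]
    push_cast at h5
    exact h5
  have hc1' : ((n.toNat : ℕ) : ℝ) = n := by exact_mod_cast hc1
  -- compare the lengths
  have hcomp : c / 8 * (Real.log N * Real.log (Real.log N)) ≤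
      c * (Real.log X * Real.log (Real.log X)) / (2 : ℕ) := by
    have e1 : Real.log N = Real.log X + Real.log 2 := by
      rw [← Real.log_mul hXpos.ne' (by norm_num)]
      congr 1
      rw [hXdef]; ring
    have hlog2 := Real.log_two_lt_d9
    have hlog2' := Real.log_two_gt_d9
    have e2 : Real.log N ≤ 2 * Real.log X := by rw [e1]; linarith
    have e3 : 0 < Real.log N := by rw [e1]; linarith
    have e4 : Real.log (Real.log N) ≤ 2 * Real.log (Real.log X) := by
      have h5 := Real.log_le_log e3 e2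
      rw [Real.log_mul (by norm_num) (by linarith)] at h5
      have h6 : Real.log 2 ≤ Real.log (Real.log X) :=
        Real.log_le_log (by norm_num) (by linarith)
      linarith
    have e5 : 0 ≤ Real.log (Real.log N) := Real.log_nonneg (by rw [e1]; linarith)
    have e6 : 0 ≤ Real.log (Real.log X) := Real.log_nonneg (by linarith)
    have e7 : Real.log N * Real.log (Real.log N) ≤
        (2 * Real.log X) * (2 * Real.log (Real.log X)) := by
      apply mul_le_mul e2 e4 e5 (by linarith)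
    push_cast
    have e8 : c / 8 * (Real.log N * Real.log (Real.log N)) ≤
        c / 8 * ((2 * Real.log X) * (2 * Real.log (Real.log X))) := by gcongr
    refine e8.trans (le_of_eq ?_)
    ring
  intro m hm
  rcases hm with hm | hm
  · apply hn3 0 m
    have e1 : ((d 0 : ℤ) : ℝ) = 0 := by simp [hd]
    rw [e1, add_zero, ← hc1']
    exact hm.trans hcomp
  · intro hmp
    apply hn3 1 (-m) _ hmp.neg
    have e1 : ((d 1 : ℤ) : ℝ) = -N := by simp [hd]
    rw [e1]
    rw [hc2] at hm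
    have e2 : ((-m : ℤ) : ℝ) - (n + -(N : ℝ)) = -((m : ℝ) - (N - n)) := by push_cast; ring
    rw [e2, abs_neg]
    exact hm.trans hcomp

end Pool.Agent.Results.MP_c853c5_nt.PrimeFreeTranslates
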